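import Pool.Agent.E8helper3.PT.Stm

/-!
# Spaces of Hankel matrices of bounded rank
-/

set_option autoImplicit false

namespace Pool.Agent.E8helper3.PT
open Polynomial Module

/-- the polynomial with the derivatives `ev h ((X + C t) ^ (D - k))`, up to factors -/
noncomputable def gp (D : ℕ) (h : ℕ → ℚ) : ℚ[X] :=
  ∑ m ∈ Finset.range (D + 1), C ((D.choose m : ℚ) * h m) * X ^ (D - m)

theorem coeff_gp (D : ℕ) (h : ℕ → ℚ) (e : ℕ) (he : e ≤ D) :
    (gp D h).coeff e = (D.choose (D - e) : ℚ) * h (D - e) := by
  rw [gp, finsetSum_coeff, Finset.sum_eq_single (D - e)]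
  · rw [coeff_C_mul_X_pow, if_pos (by omega)]
  · intro m hm hme
    rw [Finset.mem_range] at hm
    rw [coeff_C_mul_X_pow, if_neg (by omega)]
  · intro h1
    exact absurd (Finset.mem_range.2 (by omega)) h1

theorem coeff_gp_gt (D : ℕ) (h : ℕ → ℚ) (e : ℕ) (he : D < e) : (gp D h).coeff e = 0 := by
  rw [gp, finsetSum_coeff]
  refine Finset.sum_eq_zero fun m _ => ?_
  rw [coeff_C_mul_X_pow, if_neg (by omega)]

theorem ev_sum (h : ℕ → ℚ) (p : ℚ[X]) (n : ℕ) (hp : p.natDegree < n) :
    ev h p = ∑ m ∈ Finset.range n, p.coeff m * h m := by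
  rw [ev, Polynomial.sum_over_range' p (fun m => by simp) n hp]

theorem eval_gp (D : ℕ) (h : ℕ → ℚ) (t : ℚ) (k : ℕ) (hk : k ≤ D) :
    (derivative^[k] (gp D h)).eval t =
      (D.descFactorial k : ℚ) * ev h ((X + C t) ^ (D - k)) := by
  have hdeg : ((X + C t : ℚ[X]) ^ (D - k)).natDegree < D - k + 1 := by
    rw [Polynomial.natDegree_pow, Polynomial.natDegree_X_add_C, mul_one]
    omega
  rw [ev_sum h _ _ hdeg, gp, Polynomial.iterate_derivative_sum, Polynomial.eval_finsetSum,
    Finset.mul_sum]
  have hsub : Finset.range (D - k + 1) ⊆ Finset.range (D + 1) := by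
    intro m hm
    rw [Finset.mem_range] at hm ⊢
    omega
  rw [← Finset.sum_subset hsub]
  · refine Finset.sum_congr rfl fun m hm => ?_
    rw [Finset.mem_range] at hm
    rw [Polynomial.iterate_derivative_C_mul, Polynomial.iterate_derivative_X_pow_eq_smul,
      Polynomial.coeff_X_add_C_pow, Polynomial.eval_mul, Polynomial.eval_C, Polynomial.eval_smul,
      Polynomial.eval_pow, Polynomial.eval_X]
    have e1 : D - m - k = D - k - m := by omega
    have e2 : D.choose m * (D - m).descFactorial k = D.descFactorial k * (D - k).choose m := by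
      rw [Nat.descFactorial_eq_factorial_mul_choose, Nat.descFactorial_eq_factorial_mul_choose]
      have c1 := Nat.choose_mul (n := D) (k := m + k) (s := m) (by omega)
      have c2 := Nat.choose_mul (n := D) (k := m + k) (s := k) (by omega)
      have c3 : (m + k).choose m = (m + k).choose k := by
        rw [← Nat.choose_symm (by omega : k ≤ m + k), Nat.add_sub_cancel]
      rw [show m + k - m = k by omega] at c1
      rw [show m + k - k = m by omega] at c2
      rw [c3, c2] at c1
      calc D.choose m * (k.factorial * (D - m).choose k) =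
          k.factorial * (D.choose m * (D - m).choose k) := by ring
        _ = k.factorial * (D.choose k * (D - k).choose m) := by rw [← c1]
        _ = _ := by ring
    have e3 : (D.choose m : ℚ) * ((D - m).descFactorial k : ℚ) =
        (D.descFactorial k : ℚ) * ((D - k).choose m : ℚ) := by exact_mod_cast e2
    rw [e1]
    simp only [smul_eq_mul]
    calc _ = ((D.choose m : ℚ) * ((D - m).descFactorial k : ℚ)) * h m * t ^ (D - k - m) := by ring
      _ = _ := by rw [e3]; ring
  · intro m hm hm'
    rw [Finset.mem_range] at hm hm'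
    rw [Polynomial.iterate_derivative_C_mul, Polynomial.iterate_derivative_X_pow_eq_smul,
      Nat.descFactorial_eq_zero_iff_lt.2 (by omega)]
    simp

section seq

variable {n : ℕ} (hn : 0 < n)

/-- the sequence of a Hankel matrix -/
def sq (m : ℕ) : Matrix (Fin n) (Fin n) ℚ →ₗ[ℚ] ℚ where
  toFun A := if m ≤ 2 * n - 2 then A ⟨min m (n - 1), by omega⟩
    ⟨min (m - min m (n - 1)) (n - 1), by omega⟩ else 0
  map_add' A B := by
    split_ifs
    · rfl
    · rw [add_zero]
  map_smul' c A := by
    split_ifs
    · rfl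
    · rw [smul_zero]

theorem sq_apply {A : Matrix (Fin n) (Fin n) ℚ} (hA : A ∈ hankel n) (i j : Fin n) :
    A i j = sq hn (i + j) A := by
  have h1 : (i : ℕ) + j ≤ 2 * n - 2 := by omega
  change _ = if _ then _ else _
  rw [if_pos h1]
  refine hA i j _ _ ?_
  simp only
  omega

end seq

theorem hk (hwr : S_WR) (hgr : S_GR) : S_HK := by
  classical
  intro n s R hR hs hrk
  have hn : 0 < n := by omega
  by_contra hcon
  push Not at hcon
  set D := 2 * n - 2 with hD
  let I : Finset ℕ := (Finset.range (D + 1)).filter fun m =>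
    ∃ A ∈ R, (∀ m' < m, sq hn m' A = 0) ∧ sq hn m A ≠ 0
  let Ψ : R →ₗ[ℚ] (I → ℚ) := LinearMap.pi fun m => (sq hn (m : ℕ)) ∘ₗ R.subtype
  have hΨ : Function.Injective Ψ := by
    rw [injective_iff_map_eq_zero]
    intro A hA
    by_contra hne
    have h1 : ∃ m, sq hn m (A : Matrix (Fin n) (Fin n) ℚ) ≠ 0 := by
      by_contra h2
      push Not at h2
      apply hne
      apply Subtype.ext
      ext i j
      rw [sq_apply hn (hR A.2) i j, h2]
      rfl
    have h3 := Nat.find_spec h1
    have h4 : ∀ m' < Nat.find h1, sq hn m' (A : Matrix (Fin n) (Fin n) ℚ) = 0 := fun m' hm' =>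
      not_not.1 (Nat.find_min h1 hm')
    have h5 : Nat.find h1 ∈ I := by
      rw [Finset.mem_filter, Finset.mem_range]
      refine ⟨?_, A, A.2, h4, h3⟩
      by_contra h6
      apply h3
      change (if _ then _ else _) = (0 : ℚ)
      rw [if_neg (by omega)]
    exact h3 (congrFun hA ⟨_, h5⟩)
  have h1 := LinearMap.finrank_le_finrank_of_injective hΨ
  rw [finrank_fintype_fun_eq_card, Fintype.card_coe] at h1
  obtain ⟨e⟩ : Nonempty (Fin (s + 1) ↪ I) := by
    refine Function.Embedding.nonempty_of_card_le ?_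
    rw [Fintype.card_fin, Fintype.card_coe]
    omega
  have hI : ∀ j : Fin (s + 1), ((e j : ℕ) ≤ D) ∧ ∃ A ∈ R, (∀ m' < (e j : ℕ), sq hn m' A = 0) ∧
      sq hn (e j : ℕ) A ≠ 0 := by
    intro j
    have h2 := (e j).2
    rw [Finset.mem_filter, Finset.mem_range] at h2
    exact ⟨by omega, h2.2⟩
  choose he A hAR hA0 hA1 using hI
  let g : Fin (s + 1) → ℚ[X] := fun j => gp D fun m => sq hn m (A j)
  have hc : ∀ j, (g j).coeff (D - e j) ≠ 0 := by
    intro j
    rw [coeff_gp _ _ _ (by omega)]
    have h3 : D - (D - (e j : ℕ)) = e j := by have := he j; omega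
    rw [h3]
    refine mul_ne_zero ?_ (hA1 j)
    exact_mod_cast (Nat.choose_pos (he j)).ne'
  have hdeg : ∀ j, (g j).natDegree = D - e j := by
    intro j
    refine le_antisymm ?_ (Polynomial.le_natDegree_of_ne_zero (hc j))
    rw [Polynomial.natDegree_le_iff_coeff_eq_zero]
    intro m hm
    rcases Nat.lt_or_ge D m with h3 | h3
    · exact coeff_gp_gt _ _ _ h3
    · rw [coeff_gp _ _ _ h3, hA0 j _ (by have := he j; omega), mul_zero]
  have hg0 : ∀ j, g j ≠ 0 := by
    intro j h3
    apply hc j
    rw [h3, coeff_zero]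
  have hinj : Function.Injective (fun j => (g j).natDegree) := by
    intro i j hij
    simp only [hdeg] at hij
    apply e.injective
    apply Subtype.ext
    have := he i
    have := he j
    omega
  have hdet := hwr (s + 1) g hg0 hinj
  obtain ⟨t, ht⟩ : ∃ t : ℚ, (Matrix.of fun k j : Fin (s + 1) =>
      derivative^[(k : ℕ)] (g j)).det.eval t ≠ 0 := by
    by_contra h3
    push Not at h3
    exact hdet (Polynomial.funext fun t => by rw [h3 t, eval_zero])
  let Mt : Matrix (Fin (s + 1)) (Fin (s + 1)) ℚ :=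
    Matrix.of fun k j => (derivative^[(k : ℕ)] (g j)).eval t
  have hMt : IsUnit Mt.det := by
    rw [isUnit_iff_ne_zero]
    have h3 : Mt.det = (Matrix.of fun k j : Fin (s + 1) =>
        derivative^[(k : ℕ)] (g j)).det.eval t := by
      change _ = Polynomial.evalRingHom t _
      rw [RingHom.map_det]
      rfl
    rw [h3]
    exact ht
  let b : Fin (s + 1) → ℚ := Pi.single (Fin.last s) 1
  let a : Fin (s + 1) → ℚ := Mt⁻¹.mulVec b
  have ha : Mt.mulVec a = b := by
    rw [Matrix.mulVec_mulVec, Matrix.mul_nonsing_inv _ hMt, Matrix.one_mulVec]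
  let A' : Matrix (Fin n) (Fin n) ℚ := ∑ j, a j • A j
  have hA'R : A' ∈ R := Submodule.sum_mem _ fun j _ => R.smul_mem _ (hAR j)
  let h : ℕ → ℚ := fun m => sq hn m A'
  have hgp : ∀ k : Fin (s + 1), (D.descFactorial k : ℚ) * ev h ((X + C t) ^ (D - k)) = b k := by
    intro k
    have hk : (k : ℕ) ≤ D := by omega
    rw [← eval_gp D h t k hk, ← ha]
    have h4 : gp D h = ∑ j, C (a j) * g j := by
      simp only [gp, g, Finset.mul_sum]
      rw [Finset.sum_comm]
      refine Finset.sum_congr rfl fun m _ => ?_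
      have h5 : h m = ∑ j, a j * sq hn m (A j) := by
        simp only [h, A', map_sum, map_smul, smul_eq_mul]
      rw [h5, Finset.mul_sum, map_sum, Finset.sum_mul]
      refine Finset.sum_congr rfl fun j _ => ?_
      rw [← mul_assoc (C (a j)) _ (X ^ (D - m)), ← C_mul]
      congr 2
      ring
    rw [h4, Polynomial.iterate_derivative_sum, Polynomial.eval_finsetSum, Matrix.mulVec,
      dotProduct]
    refine Finset.sum_congr rfl fun j _ => ?_
    rw [Polynomial.iterate_derivative_C_mul, Polynomial.eval_mul, Polynomial.eval_C, mul_comm]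
    rfl
  have hdf : ∀ k : Fin (s + 1), (D.descFactorial k : ℚ) ≠ 0 := by
    intro k
    have : D.descFactorial k ≠ 0 := by
      rw [Ne, Nat.descFactorial_eq_zero_iff_lt]
      omega
    exact_mod_cast this
  have hrank := hgr n (s + 1) h t (by omega) (by omega) (by
    intro k hk
    rw [Nat.add_sub_cancel] at hk
    have h5 := hgp ⟨k, by omega⟩
    have h6 : b ⟨k, by omega⟩ = 0 := by
      simp only [b]
      rw [Pi.single_eq_of_ne]
      intro h7
      have := congrArg Fin.val h7
      simp at this
      omega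
    rw [h6] at h5
    exact (mul_eq_zero.1 h5).resolve_left (hdf _)) (by
    intro h5
    have h6 := hgp (Fin.last s)
    rw [Nat.add_sub_cancel] at h5
    rw [Fin.val_last, ← hD] at *
    rw [h5, mul_zero] at h6
    simp [b] at h6)
  have h7 : (Matrix.of fun i j : Fin n => h (i + j)) = A' := by
    ext i j
    exact (sq_apply hn (hR hA'R) i j).symm
  rw [h7] at hrank
  have := hrk A' hA'R
  omega

end Pool.Agent.E8helper3.PT
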