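import Mathlib

/-!
# Spaces of Hankel and of symmetric matrices of bounded rank: statements of the pieces
-/

set_option autoImplicit false

namespace Pool.Agent.E8helper3.PT
open Polynomial Module

/-- Hankel matrices -/
def hankel (n : ℕ) : Submodule ℚ (Matrix (Fin n) (Fin n) ℚ) where
  carrier := {A | ∀ i j i' j' : Fin n, (i : ℕ) + j = i' + j' → A i j = A i' j'}
  add_mem' := by
    intro A B hA hB i j i' j' h
    rw [Matrix.add_apply, Matrix.add_apply, hA i j i' j' h, hB i j i' j' h]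
  zero_mem' := fun _ _ _ _ _ => rfl
  smul_mem' := by
    intro c A hA i j i' j' h
    rw [Matrix.smul_apply, Matrix.smul_apply, hA i j i' j' h]

/-- symmetric matrices -/
def sym (n : ℕ) : Submodule ℚ (Matrix (Fin n) (Fin n) ℚ) where
  carrier := {A | ∀ i j : Fin n, A i j = A j i}
  add_mem' := by
    intro A B hA hB i j
    rw [Matrix.add_apply, Matrix.add_apply, hA i j, hB i j]
  zero_mem' := fun _ _ => rfl
  smul_mem' := by
    intro c A hA i j
    rw [Matrix.smul_apply, Matrix.smul_apply, hA i j]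

/-- the linear functional on the polynomials with the moments `h` -/
noncomputable def ev (h : ℕ → ℚ) (p : ℚ[X]) : ℚ := p.sum fun i a => a * h i

/-- the Wronskian of polynomials of distinct degrees is not zero -/
def S_WR : Prop := ∀ (d : ℕ) (g : Fin d → ℚ[X]), (∀ j, g j ≠ 0) →
  Function.Injective (fun j => (g j).natDegree) →
  (Matrix.of fun k j : Fin d => derivative^[(k : ℕ)] (g j)).det ≠ 0

/-- a Hankel matrix whose functional has vanishing order `d - 1` at a point has rank at least `d` -/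
def S_GR : Prop := ∀ (n d : ℕ) (h : ℕ → ℚ) (t : ℚ), 1 ≤ d → d ≤ n →
  (∀ k, k < d - 1 → ev h ((X + C t) ^ (2 * n - 2 - k)) = 0) →
  ev h ((X + C t) ^ (2 * n - 2 - (d - 1))) ≠ 0 →
  d ≤ (Matrix.of fun i j : Fin n => h (i + j)).rank

/-- spaces of Hankel matrices of bounded rank (from `S_WR` and `S_GR`) -/
def S_HK : Prop := ∀ (n s : ℕ) (R : Submodule ℚ (Matrix (Fin n) (Fin n) ℚ)), R ≤ hankel n →
  s < n → (∀ A ∈ R, A.rank ≤ s) → finrank ℚ R ≤ s

/-- the space of the Hankel matrices, and an example of small rank -/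
def S_HD : Prop := (∀ n : ℕ, 1 ≤ n → finrank ℚ (hankel n) = 2 * n - 1) ∧
  ∀ n s : ℕ, s ≤ n → ∃ R : Submodule ℚ (Matrix (Fin n) (Fin n) ℚ), R ≤ hankel n ∧
    (∀ A ∈ R, A.rank ≤ s) ∧ finrank ℚ R = s

/-- spaces of symmetric matrices of bounded rank -/
def S_SY : Prop := ∀ (n s : ℕ) (R : Submodule ℚ (Matrix (Fin n) (Fin n) ℚ)), R ≤ sym n →
  (∀ A ∈ R, A.rank ≤ s) → 2 * finrank ℚ R ≤ s * (n + 1)

/-- the space of the symmetric matrices, and an example of small rank -/
def S_SD : Prop := (∀ n : ℕ, 2 * finrank ℚ (sym n) = n * (n + 1)) ∧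
  ∀ n s : ℕ, s ≤ n → ∃ R : Submodule ℚ (Matrix (Fin n) (Fin n) ℚ), R ≤ sym n ∧
    (∀ A ∈ R, A.rank ≤ s) ∧ 2 * finrank ℚ R = s * (s + 1)

end Pool.Agent.E8helper3.PT
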