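import Pool.Agent.Y787.AS.Fl
import Pool.Agent.E8helper3.PT.Stm

/-!
# Spaces of symmetric matrices of bounded rank
-/

set_option autoImplicit false

namespace Pool.Agent.E8helper3.PT
open Module Matrix
open Pool.Agent.Y787.AS

section diag

variable {n : ℕ} (D : Fin n → ℚ)

/-- the row of an index -/
def rw' (i : Fin n) : Matrix (Fin n) (Fin n) ℚ →ₗ[ℚ] ({l // D l ≠ 0} → ℚ) where
  toFun X := fun l => X i l
  map_add' _ _ := rfl
  map_smul' _ _ := rfl

/-- the main block of a symmetric matrix -/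
noncomputable def sb : Matrix (Fin n) (Fin n) ℚ →ₗ[ℚ] (Sym2 {l // D l ≠ 0} → ℚ) where
  toFun X := fun z => X (Quot.out z).1 (Quot.out z).2
  map_add' _ _ := rfl
  map_smul' _ _ := rfl

theorem sym_diag (R : Submodule ℚ (Matrix (Fin n) (Fin n) ℚ)) (hR : R ≤ sym n)
    (hD : diagonal D ∈ R) (h : ∀ X ∈ R, X.rank ≤ (diagonal D).rank) :
    2 * finrank ℚ R ≤ (diagonal D).rank * (n + 1) := by
  classical
  have hrk : (diagonal D).rank = Fintype.card {l // D l ≠ 0} := Matrix.rank_diagonal D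
  rw [hrk] at h ⊢
  have hrel := fun (X : Matrix (Fin n) (Fin n) ℚ) (hX : X ∈ R) (i j : Fin n) (hi : D i = 0)
    (hj : D j = 0) => diag_rel D X (fun y => h _ (R.add_mem hD (R.smul_mem y hX))) i j hi hj
  let Φ : R →ₗ[ℚ] (Sym2 {l // D l ≠ 0} → ℚ) ×
      (∀ i : {i // ¬ D i ≠ 0}, R.map (rw' D (i : Fin n))) :=
    LinearMap.prod (sb D ∘ₗ R.subtype) (LinearMap.pi fun i =>
      (rw' D (i : Fin n)).restrict fun X hX => Submodule.mem_map_of_mem hX)
  have hΦ : Function.Injective Φ := by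
    rw [injective_iff_map_eq_zero]
    intro X hX
    have hs : ∀ i j, (X : Matrix (Fin n) (Fin n) ℚ) i j = (X : Matrix (Fin n) (Fin n) ℚ) j i :=
      hR X.2
    have h1 : ∀ l l' : {l // D l ≠ 0}, (X : Matrix (Fin n) (Fin n) ℚ) l l' = 0 := by
      intro l l'
      have h3 : (X : Matrix (Fin n) (Fin n) ℚ) (Quot.out s(l, l')).1 (Quot.out s(l, l')).2 = 0 :=
        congrFun (congrArg Prod.fst hX) s(l, l')
      have h4 : s((Quot.out s(l, l')).1, (Quot.out s(l, l')).2) = s(l, l') :=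
        Quot.out_eq s(l, l')
      rcases Sym2.eq_iff.1 h4 with ⟨e1, e2⟩ | ⟨e1, e2⟩
      · rw [e1, e2] at h3
        exact h3
      · rw [e1, e2, hs] at h3
        exact h3
    have h2 : ∀ i : {i // ¬ D i ≠ 0}, rw' D (i : Fin n) (X : Matrix (Fin n) (Fin n) ℚ) = 0 :=
      fun i => congrArg Subtype.val (congrFun (congrArg Prod.snd hX) i)
    apply Subtype.ext
    ext i j
    by_cases hi : D i ≠ 0
    · by_cases hj : D j ≠ 0
      · exact h1 ⟨i, hi⟩ ⟨j, hj⟩
      · rw [hs]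
        exact congrFun (h2 ⟨j, hj⟩) ⟨i, hi⟩
    · by_cases hj : D j ≠ 0
      · exact congrFun (h2 ⟨i, hi⟩) ⟨j, hj⟩
      · exact (hrel X X.2 i j (not_not.1 hi) (not_not.1 hj)).1
  have h1 := LinearMap.finrank_le_finrank_of_injective hΦ
  obtain ⟨s, hs⟩ : ∃ s, Fintype.card {l // D l ≠ 0} = s := ⟨_, rfl⟩
  have e1 : 2 * finrank ℚ (Sym2 {l // D l ≠ 0} → ℚ) = s * (s + 1) := by
    rw [finrank_fintype_fun_eq_card, Sym2.card, hs, Nat.choose_two_right, Nat.add_sub_cancel,
      Nat.mul_div_cancel' (by rw [mul_comm]; exact (Nat.even_mul_succ_self s).two_dvd), mul_comm]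
  have e2 : finrank ℚ (∀ i : {i // ¬ D i ≠ 0}, R.map (rw' D (i : Fin n))) =
      ∑ i : {i // ¬ D i ≠ 0}, finrank ℚ (R.map (rw' D (i : Fin n))) :=
    Module.finrank_pi_fintype ℚ
  rw [Module.finrank_prod, e2] at h1
  have h2 : 2 * ∑ i : {i // ¬ D i ≠ 0}, finrank ℚ (R.map (rw' D (i : Fin n))) ≤
      ∑ _i : {i // ¬ D i ≠ 0}, s := by
    rw [Finset.mul_sum]
    refine Finset.sum_le_sum fun i _ => ?_
    have hq : ∀ c ∈ R.map (rw' D (i : Fin n)), ∑ l, c l * (D l)⁻¹ * c l = 0 := by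
      rintro c ⟨X, hX, rfl⟩
      have h3 := (hrel X hX i i (not_not.1 i.2) (not_not.1 i.2)).2
      have hsX : ∀ i j, X i j = X j i := hR hX
      refine Eq.trans (Finset.sum_congr rfl fun l _ => ?_) h3
      change X i l * (D l)⁻¹ * X i l = X i l * (D l)⁻¹ * X l i
      rw [hsX l i]
    have h3 := orth_le (fun l : {l // D l ≠ 0} => (D l)⁻¹) (fun l => inv_ne_zero l.2)
      (R.map (rw' D (i : Fin n))) (R.map (rw' D (i : Fin n))) (by
        intro c hc b hb
        have e3 := hq _ (Submodule.add_mem _ hc hb)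
        have e4 := hq c hc
        have e5 := hq b hb
        have e6 : ∑ l, (c + b) l * (D l)⁻¹ * (c + b) l = ∑ l, c l * (D l)⁻¹ * c l +
            2 * ∑ l, c l * (D l)⁻¹ * b l + ∑ l, b l * (D l)⁻¹ * b l := by
          rw [Finset.mul_sum, ← Finset.sum_add_distrib, ← Finset.sum_add_distrib]
          refine Finset.sum_congr rfl fun l _ => ?_
          rw [Pi.add_apply]
          ring
        rw [e3, e4, e5] at e6
        linarith)
    rw [hs] at h3
    omega
  rw [Finset.sum_const, Finset.card_univ, smul_eq_mul] at h2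
  have h3 : s + Fintype.card {l // ¬ D l ≠ 0} = n := by
    have := Fintype.card_subtype_compl (fun l => D l ≠ 0)
    have h4 := Fintype.card_subtype_le (fun l => D l ≠ 0)
    rw [Fintype.card_fin] at this h4
    omega
  rw [hs]
  calc 2 * finrank ℚ R ≤ 2 * (finrank ℚ (Sym2 {l // D l ≠ 0} → ℚ) +
        ∑ i : {i // ¬ D i ≠ 0}, finrank ℚ (R.map (rw' D (i : Fin n)))) :=
        Nat.mul_le_mul_left _ h1
    _ = s * (s + 1) + 2 * ∑ i : {i // ¬ D i ≠ 0}, finrank ℚ (R.map (rw' D (i : Fin n))) := by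
        rw [mul_add, e1]
    _ ≤ s * (s + 1) + Fintype.card {l // ¬ D l ≠ 0} * s := Nat.add_le_add_left h2 _
    _ = s * (n + 1) := by
        have h4 : s * (s + Fintype.card {l // ¬ D l ≠ 0}) = s * n := by rw [h3]
        linarith

end diag

theorem sy : S_SY := by
  classical
  intro n t R hR h
  obtain ⟨X₁, hX₁, hmax⟩ : ∃ X₁ ∈ R, ∀ X ∈ R, X.rank ≤ X₁.rank := by
    have hbdd : BddAbove {m | ∃ X ∈ R, X.rank = m} := ⟨t, by rintro _ ⟨X, hX, rfl⟩; exact h X hX⟩
    obtain ⟨X₁, hX₁, h1⟩ := Nat.sSup_mem (s := {m | ∃ X ∈ R, X.rank = m})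
      ⟨_, 0, R.zero_mem, rfl⟩ hbdd
    exact ⟨X₁, hX₁, fun X hX => by rw [h1]; exact le_csSup hbdd ⟨X, hX, rfl⟩⟩
  have hs1 : ∀ i j, X₁ i j = X₁ j i := hR hX₁
  obtain ⟨P, D, hP, hD⟩ : ∃ (P : Matrix (Fin n) (Fin n) ℚ) (D : Fin n → ℚ), IsUnit P ∧
      Pᵀ * X₁ * P = diagonal D := by
    have hB : LinearMap.IsSymm (Matrix.toBilin' X₁) := by
      refine ⟨fun x y => ?_⟩
      rw [RingHom.id_apply, Matrix.toBilin'_apply, Matrix.toBilin'_apply, Finset.sum_comm]
      refine Finset.sum_congr rfl fun i _ => Finset.sum_congr rfl fun j _ => ?_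
      rw [hs1 j i]
      ring
    have := invertibleOfNonzero (two_ne_zero : (2 : ℚ) ≠ 0)
    obtain ⟨v, hv⟩ := LinearMap.BilinForm.exists_orthogonal_basis hB
    have hn : finrank ℚ (Fin n → ℚ) = n := by rw [finrank_fintype_fun_eq_card, Fintype.card_fin]
    let w : Fin n → (Fin n → ℚ) := fun i => v (Fin.cast hn.symm i)
    have hw : LinearIndependent ℚ w :=
      v.linearIndependent.comp _ (Fin.cast_injective hn.symm)
    have hw2 : ∀ i j, i ≠ j → Matrix.toBilin' X₁ (w i) (w j) = 0 := by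
      intro i j hij
      exact hv (fun he => hij (Fin.cast_injective hn.symm he))
    refine ⟨Matrix.of fun i j => w j i, fun i => Matrix.toBilin' X₁ (w i) (w i), ?_, ?_⟩
    · rw [← Matrix.linearIndependent_cols_iff_isUnit]
      exact hw
    · ext i j
      have h1 : ((Matrix.of fun i j => w j i)ᵀ * X₁ * (Matrix.of fun i j => w j i)) i j =
          Matrix.toBilin' X₁ (w i) (w j) := by
        rw [Matrix.toBilin'_apply, Matrix.mul_apply, Finset.sum_comm]
        refine Finset.sum_congr rfl fun b _ => ?_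
        rw [Matrix.mul_apply, Finset.sum_mul]
        rfl
      rw [h1]
      by_cases hij : i = j
      · subst hij
        rw [Matrix.diagonal_apply_eq]
      · rw [Matrix.diagonal_apply_ne _ hij, hw2 i j hij]
  have hPd : IsUnit P.det := (Matrix.isUnit_iff_isUnit_det _).1 hP
  have hPd' : IsUnit Pᵀ.det := by rw [Matrix.det_transpose]; exact hPd
  let Ψ : Matrix (Fin n) (Fin n) ℚ →ₗ[ℚ] Matrix (Fin n) (Fin n) ℚ :=
    LinearMap.mulRight ℚ P ∘ₗ LinearMap.mulLeft ℚ Pᵀ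
  have hΨ : ∀ X, Ψ X = Pᵀ * X * P := fun X => rfl
  have hinj : Function.Injective Ψ := by
    rw [injective_iff_map_eq_zero]
    intro X hX
    rw [hΨ] at hX
    have h1 : (Pᵀ)⁻¹ * (Pᵀ * X * P) * P⁻¹ = 0 := by rw [hX, Matrix.mul_zero, Matrix.zero_mul]
    rw [← Matrix.mul_assoc, ← Matrix.mul_assoc, Matrix.nonsing_inv_mul _ hPd',
      Matrix.one_mul, Matrix.mul_assoc, Matrix.mul_nonsing_inv _ hPd,
      Matrix.mul_one] at h1
    exact h1
  have h1 : finrank ℚ (R.map Ψ) = finrank ℚ R :=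
    (Submodule.equivMapOfInjective Ψ hinj R).finrank_eq.symm
  have hr1 : (diagonal D).rank = X₁.rank := by
    rw [← hD, Matrix.rank_mul_eq_left_of_isUnit_det _ _ hPd,
      Matrix.rank_mul_eq_right_of_isUnit_det _ _ hPd']
  have h2 := sym_diag D (R.map Ψ) (by
    rintro _ ⟨X, hX, rfl⟩
    have hsX : Xᵀ = X := by
      ext i j
      exact hR hX j i
    intro i j
    rw [hΨ]
    have e1 : (Pᵀ * X * P)ᵀ = Pᵀ * X * P := by
      rw [Matrix.transpose_mul, Matrix.transpose_mul, Matrix.transpose_transpose, hsX,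
        Matrix.mul_assoc]
    exact congrFun (congrFun e1.symm i) j) ⟨X₁, hX₁, hD⟩ (by
    rintro _ ⟨X, hX, rfl⟩
    rw [hr1, hΨ]
    exact (Matrix.rank_mul_le_left _ _).trans ((Matrix.rank_mul_le_right _ _).trans (hmax X hX)))
  rw [h1, hr1] at h2
  exact h2.trans (Nat.mul_le_mul_right _ (h X₁ hX₁))

end Pool.Agent.E8helper3.PT
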