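import Pool.Agent.E8helper3.PT.Sr
import Pool.Agent.E8helper3.PT.Hk
import Pool.Agent.E8helper3.PT.Sy
import Pool.Agent.E8helper91.PT.Wr
import Pool.Agent.E8helper63.PT.Gr
import Pool.Agent.E8helper36.PT.HdSd

/-!
# The pieces
-/

set_option autoImplicit false

namespace Pool.Agent.E8helper3.PT

theorem t_HK : S_HK := hk Pool.Agent.E8helper91.PT.wr Pool.Agent.E8helper63.PT.t_GR
theorem t_HD : S_HD := Pool.Agent.E8helper36.PT.hd
theorem t_SY : S_SY := sy
theorem t_SD : S_SD := Pool.Agent.E8helper36.PT.sd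

end Pool.Agent.E8helper3.PT
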