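import Pool.Agent.Y787.AS.StrataFin

/-!
# Linear families of matrices of logarithms: dimension and counting
-/

set_option autoImplicit false

namespace Pool.Agent.E8helper3.PT
open MvPolynomial Module
open Pool.Agent.W254.PA (Hyp)
open Pool.Agent.Y787.AS

section main

variable {k Cc : Type} [Field k] [Field Cc] [Algebra k Cc]

/-- the matrix with given coordinates -/
def lin {m n : ℕ} (B : Fin m → Matrix (Fin n) (Fin n) k) (y : Fin m → Cc) :
    Matrix (Fin n) (Fin n) Cc :=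
  Matrix.of fun i j => ∑ b, algebraMap k Cc (B b i j) * y b

/-- the minors of size `r + 1` of the matrices of the family -/
noncomputable def famF {m n : ℕ} (r : ℕ) (M₀ : Matrix (Fin n) (Fin n) Cc)
    (B : Fin m → Matrix (Fin n) (Fin n) k)
    (a : Fin (Fintype.card ((Fin (r + 1) → Fin n) × (Fin (r + 1) → Fin n)))) :
    MvPolynomial (Fin m) Cc :=
  bind₁ (fun p : Fin (n * n) =>
    C (M₀ (finProdFinEquiv.symm p).1 (finProdFinEquiv.symm p).2) +
      ∑ b, C (algebraMap k Cc (B b (finProdFinEquiv.symm p).1 (finProdFinEquiv.symm p).2)) * X b)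
    (minF Cc n r a)

theorem eval_famF {m n r : ℕ} (M₀ : Matrix (Fin n) (Fin n) Cc)
    (B : Fin m → Matrix (Fin n) (Fin n) k) (z : Fin m → Cc)
    (a : Fin (Fintype.card ((Fin (r + 1) → Fin n) × (Fin (r + 1) → Fin n)))) :
    eval z (famF r M₀ B a) = eval (fun p => (M₀ + lin B z) (finProdFinEquiv.symm p).1
      (finProdFinEquiv.symm p).2) (minF Cc n r a) := by
  change eval₂Hom (RingHom.id Cc) z (bind₁ _ _) = _
  rw [eval₂Hom_bind₁]
  change eval (fun p => eval z _) _ = _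
  congr 2
  funext p
  simp [lin, Matrix.add_apply]

theorem famF_zero_iff {m n r : ℕ} (M₀ : Matrix (Fin n) (Fin n) Cc)
    (B : Fin m → Matrix (Fin n) (Fin n) k) (z : Fin m → Cc) :
    (∀ a, eval z (famF r M₀ B a) = 0) ↔ (M₀ + lin B z).rank ≤ r := by
  simp only [eval_famF]
  rw [minF_zero_iff]
  have h : (Matrix.of fun i j : Fin n => (M₀ + lin B z)
      (finProdFinEquiv.symm (finProdFinEquiv (i, j))).1
      (finProdFinEquiv.symm (finProdFinEquiv (i, j))).2) = M₀ + lin B z := by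
    ext i j
    rw [Matrix.of_apply, Equiv.symm_apply_apply]
  rw [h]

/-- the hypothesis on the coefficient -/
def Coef (k : Type) [Field k] {n : ℕ} (r : ℕ) (𝒜 : Submodule k (Matrix (Fin n) (Fin n) k))
    (ρ : ℕ) : Prop :=
  2 * r ≤ n + 1 ∨ ∀ S : Submodule k (Matrix (Fin n) (Fin n) k), S ≤ 𝒜 →
    (∀ C ∈ S, C.rank ≤ 2 * r - n) → finrank k S ≤ ρ

/-- **The rational directions.** -/
theorem trans_fam [Infinite k] [Infinite Cc] {L : Submodule k Cc} (hL : WMP k L)
    {n r m ρ : ℕ} (hr : r < n) (𝒜 : Submodule k (Matrix (Fin n) (Fin n) k))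
    (hρ : Coef k r 𝒜 ρ) (M₀ : Matrix (Fin n) (Fin n) Cc)
    (B : Fin m → Matrix (Fin n) (Fin n) k) (hB : LinearIndependent k B) (hB' : ∀ b, B b ∈ 𝒜)
    (y : Fin m → Cc) (hM : ∀ i j, (M₀ + lin B y) i j ∈ L) (hz : ¬ RZ k (M₀ + lin B y))
    (R : Submodule k (Fin m → k)) (h : Trans k (famF r M₀ B) y R) : finrank k R ≤ ρ := by
  classical
  let e : (Fin m → k) →ₗ[k] Matrix (Fin n) (Fin n) k := Fintype.linearCombination k B
  have he : Function.Injective e := by
    rw [injective_iff_map_eq_zero]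
    intro c hc
    funext a
    exact Fintype.linearIndependent_iff.1 hB c hc a
  have hfr : finrank k (R.map e) = finrank k R :=
    (Submodule.equivMapOfInjective e he R).finrank_eq.symm
  have hsub : R.map e ≤ 𝒜 := by
    rintro _ ⟨c, _, rfl⟩
    change Fintype.linearCombination k B c ∈ 𝒜
    rw [Fintype.linearCombination_apply]
    exact Submodule.sum_mem _ fun b _ => 𝒜.smul_mem _ (hB' b)
  have hline : ∀ D ∈ R.map e, ∀ x : Cc,
      ((M₀ + lin B y) + x • D.map (algebraMap k Cc)).rank ≤ r := by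
    rintro _ ⟨c, hc, rfl⟩ x
    have h1 := (famF_zero_iff M₀ B _).1 fun a => h a (x • fun p => algebraMap k Cc (c p))
      (Submodule.smul_mem _ _ (Submodule.subset_span ⟨c, hc, rfl⟩))
    have h2 : M₀ + lin B (fun i => y i + (x • fun p => algebraMap k Cc (c p)) i) =
        (M₀ + lin B y) + x • (e c).map (algebraMap k Cc) := by
      ext i j
      have h3 : e c i j = ∑ b, c b * B b i j := by
        simp [e, Fintype.linearCombination_apply, Matrix.sum_apply]
      simp only [Matrix.add_apply, lin, Matrix.of_apply, Matrix.smul_apply, Matrix.map_apply, h3,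
        Pi.smul_apply, smul_eq_mul, map_sum, map_mul, mul_add, Finset.sum_add_distrib,
        Finset.mul_sum, add_assoc]
      congr 2
      refine Finset.sum_congr rfl fun b _ => ?_
      ring
    rw [h2] at h1
    exact h1
  rw [← hfr]
  rcases hρ with hc | hc
  · have h2 : R.map e = ⊥ := by
      by_contra h2
      obtain ⟨D, hD, hD0⟩ := Submodule.exists_mem_ne_zero_of_ne_bot h2
      exact hz (rz_of_line hL _ hM D hD0 hr (hline D hD) (Or.inr hc))
    rw [h2, finrank_bot]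
    exact Nat.zero_le _
  · refine hc _ hsub fun D hD => ?_
    by_contra h1
    refine hz (rz_of_line hL _ hM D ?_ hr (hline D hD) (Or.inl (by omega)))
    rintro rfl
    rw [Matrix.rank_zero] at h1
    omega

/-- the linear map from coordinates to matrices over `W` -/
noncomputable def linW {m n : ℕ} (B : Fin m → Matrix (Fin n) (Fin n) k) (W : Submodule k Cc) :
    (Fin m → W) →ₗ[k] Matrix (Fin n) (Fin n) W where
  toFun y := Matrix.of fun i j => ∑ b, B b i j • y b
  map_add' y y' := by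
    ext i j
    simp [Matrix.add_apply, Finset.sum_add_distrib]
  map_smul' c y := by
    ext i j
    simp only [Matrix.of_apply, Matrix.smul_apply, Pi.smul_apply, RingHom.id_apply]
    rw [Finset.smul_sum]
    congr 1
    refine Finset.sum_congr rfl fun b _ => ?_
    rw [smul_comm]

theorem linW_coe {m n : ℕ} (B : Fin m → Matrix (Fin n) (Fin n) k) (W : Submodule k Cc)
    (y : Fin m → W) : (linW B W y).map (fun x => (x : Cc)) = lin B (fun b => (y b : Cc)) := by
  ext i j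
  simp [linW, lin, Algebra.smul_def]

theorem exists_coord (W : Submodule k Cc) [FiniteDimensional k W] {n : ℕ}
    (𝒜 : Submodule k (Matrix (Fin n) (Fin n) k)) (A : Matrix (Fin n) (Fin n) W)
    (hA : ∀ f : W →ₗ[k] k, A.map f ∈ 𝒜) :
    ∃ y : Fin (finrank k 𝒜) → W,
      linW (fun b => (finBasis k 𝒜 b : Matrix (Fin n) (Fin n) k)) W y = A := by
  classical
  let e := finBasis k W
  refine ⟨fun b => ∑ j, (finBasis k 𝒜).repr ⟨A.map (e.coord j), hA _⟩ b • e j, ?_⟩
  ext i i'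
  have h1 : ∀ j, ∑ b, (finBasis k 𝒜).repr ⟨A.map (e.coord j), hA _⟩ b *
      (finBasis k 𝒜 b : Matrix (Fin n) (Fin n) k) i i' = e.repr (A i i') j := by
    intro j
    have h2 := congrArg (fun X : 𝒜 => (X : Matrix (Fin n) (Fin n) k) i i')
      ((finBasis k 𝒜).sum_repr ⟨A.map (e.coord j), hA _⟩)
    simp only [Submodule.coe_sum, Submodule.coe_smul, Matrix.sum_apply, Matrix.smul_apply,
      smul_eq_mul, Matrix.map_apply] at h2
    exact h2
  congr 1
  have h3 : (linW (fun b => (finBasis k 𝒜 b : Matrix (Fin n) (Fin n) k)) W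
      (fun b => ∑ j, (finBasis k 𝒜).repr ⟨A.map (e.coord j), hA _⟩ b • e j)) i i' =
      ∑ j, (∑ b, (finBasis k 𝒜).repr ⟨A.map (e.coord j), hA _⟩ b *
      (finBasis k 𝒜 b : Matrix (Fin n) (Fin n) k) i i') • e j := by
    change ∑ b, (finBasis k 𝒜 b : Matrix (Fin n) (Fin n) k) i i' •
      (∑ j, (finBasis k 𝒜).repr ⟨A.map (e.coord j), hA _⟩ b • e j) = _
    simp only [Finset.smul_sum, Finset.sum_smul]
    rw [Finset.sum_comm]
    refine Finset.sum_congr rfl fun j _ => Finset.sum_congr rfl fun b _ => ?_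
    rw [smul_smul, mul_comm]
  rw [h3]
  simp only [h1]
  exact e.sum_repr (A i i')

/-- **Dimension.** -/
theorem fam_dim [CharZero k] [CharZero Cc] {Lt L : Submodule k Cc} (hL : Hyp Lt)
    (hw : Wts' k Cc) (hWM : WMP k L) (W : Submodule k Cc) [FiniteDimensional k W]
    (hW : W ≤ Lt) (hW' : W ≤ L) {n r ρ : ℕ} (hr : r < n)
    (𝒜 : Submodule k (Matrix (Fin n) (Fin n) k)) (hρ : Coef k r 𝒜 ρ)
    (hρ' : ρ ≤ finrank k 𝒜) (M₀ : Matrix (Fin n) (Fin n) Cc) (hM₀ : ∀ i j, M₀ i j ∈ L)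
    (φ : Fin (ρ * finrank k W + (finrank k 𝒜 - ρ) * (finrank k 𝒜 - 1) + 1) →
      (Matrix (Fin n) (Fin n) W →ₗ[k] k)) :
    ∃ P : MvPolynomial (Fin (ρ * finrank k W + (finrank k 𝒜 - ρ) * (finrank k 𝒜 - 1) + 1)) k,
      P ≠ 0 ∧ ∀ A : Matrix (Fin n) (Fin n) W, (∀ f : W →ₗ[k] k, A.map f ∈ 𝒜) →
      (M₀ + A.map (fun x => (x : Cc))).rank ≤ r →
      ¬ RZ k (M₀ + A.map (fun x => (x : Cc))) → eval (fun i => φ i A) P = 0 := by
  classical
  let B : Fin (finrank k 𝒜) → Matrix (Fin n) (Fin n) k := fun b => finBasis k 𝒜 b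
  have hB : LinearIndependent k B := (finBasis k 𝒜).linearIndependent.map' 𝒜.subtype
      (LinearMap.ker_eq_bot.2 𝒜.subtype_injective)
  have hB' : ∀ b, B b ∈ 𝒜 := fun b => (finBasis k 𝒜 b).2
  obtain ⟨P, h1, h2⟩ := var_dim hL hw W hW hρ' (famF r M₀ B) (fun i => φ i ∘ₗ linW B W)
  refine ⟨P, h1, fun A hA hrk hz => ?_⟩
  obtain ⟨y, rfl⟩ := exists_coord W 𝒜 A hA
  rw [linW_coe] at hrk hz
  have h4 := h2 y ((famF_zero_iff M₀ B _).2 hrk) (by
    intro R hR
    refine trans_fam hWM hr 𝒜 hρ M₀ B hB hB' _ (fun i j => ?_) hz R hR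
    rw [Matrix.add_apply]
    refine L.add_mem (hM₀ i j) ?_
    rw [lin, Matrix.of_apply]
    refine Submodule.sum_mem _ fun b _ => ?_
    rw [← Algebra.smul_def]
    exact L.smul_mem _ (hW' (y b).2))
  exact h4

/-- **Counting, upper bound.** -/
theorem fam_upper [CharZero Cc] [Algebra ℚ Cc] {Lt L : Submodule ℚ Cc} (hL : Hyp Lt)
    (hw : Wts' ℚ Cc) (hWM : WMP ℚ L) {n r N ρ : ℕ} (hr : r < n)
    (𝒜 : Submodule ℚ (Matrix (Fin n) (Fin n) ℚ)) (hρ : Coef ℚ r 𝒜 ρ)
    (hρ' : ρ ≤ finrank ℚ 𝒜) (M₀ : Matrix (Fin n) (Fin n) Cc) (hM₀ : ∀ i j, M₀ i j ∈ L)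
    (l : Fin N → Cc) (hl : ∀ j, l j ∈ Lt) (hl' : ∀ j, l j ∈ L) (hli : LinearIndependent ℚ l) :
    ∃ κ : ℕ, ∀ H : ℕ, 1 ≤ H →
      Set.ncard {A : Fin n → Fin n → Fin N → ℤ | (∀ i j s, |A i j s| ≤ H) ∧
        ((∀ s, (Matrix.of fun i j => (A i j s : ℚ)) ∈ 𝒜) ∧
        (M₀ + Matrix.of fun i j => ∑ s, (A i j s : Cc) * l s).rank ≤ r ∧
        ¬ RZ ℚ (M₀ + Matrix.of fun i j => ∑ s, (A i j s : Cc) * l s))} ≤
      κ * H ^ (ρ * N + (finrank ℚ 𝒜 - ρ) * (finrank ℚ 𝒜 - 1)) := by
  classical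
  have hcast : ∀ (b : Fin n → Fin n → Fin N → ℤ),
      (Matrix.of fun i j => ∑ s, algebraMap ℚ Cc ((b i j s : ℤ) : ℚ) * l s) =
      (Matrix.of fun i j => ∑ s, (b i j s : Cc) * l s) := by
    intro b
    ext i j
    simp
  let B : Fin (finrank ℚ 𝒜) → Matrix (Fin n) (Fin n) ℚ := fun b => finBasis ℚ 𝒜 b
  have hB : LinearIndependent ℚ B := (finBasis ℚ 𝒜).linearIndependent.map' 𝒜.subtype
      (LinearMap.ker_eq_bot.2 𝒜.subtype_injective)
  have hB' : ∀ b, B b ∈ 𝒜 := fun b => (finBasis ℚ 𝒜 b).2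
  let E : (Fin (finrank ℚ 𝒜) × Fin N → ℚ) →ₗ[ℚ] (Fin (n * n) × Fin N → ℚ) :=
    { toFun := fun c p => ∑ b, c (b, p.2) * B b (finProdFinEquiv.symm p.1).1
        (finProdFinEquiv.symm p.1).2
      map_add' := by
        intro c c'
        funext p
        simp [add_mul, Finset.sum_add_distrib]
      map_smul' := by
        intro a c
        funext p
        simp [Finset.mul_sum, mul_assoc] }
  obtain ⟨κ, hκ⟩ := Pool.Agent.Y787.HS.count_gen (K := ℚ)
    (d := ρ * N + (finrank ℚ 𝒜 - ρ) * (finrank ℚ 𝒜 - 1)) (σ := Fin (n * n) × Fin N)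
    {x | (∀ s, (Matrix.of fun i j : Fin n => x (finProdFinEquiv (i, j), s)) ∈ 𝒜) ∧
      (M₀ + Matrix.of fun i j : Fin n => ∑ s, algebraMap ℚ Cc
        (x (finProdFinEquiv (i, j), s)) * l s).rank ≤ r ∧
      ¬ RZ ℚ (M₀ + Matrix.of fun i j : Fin n => ∑ s, algebraMap ℚ Cc
        (x (finProdFinEquiv (i, j), s)) * l s)} (by
      intro φ
      obtain ⟨P, h1, h2⟩ := var_coord hL hw hρ' l hl hli (famF r M₀ B) (fun i => φ i ∘ₗ E)
      refine ⟨P, h1, fun x hx => ?_⟩
      obtain ⟨hx1, hx2, hx3⟩ := hx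
      let c : Fin (finrank ℚ 𝒜) → Fin N → ℚ := fun b s => (finBasis ℚ 𝒜).repr ⟨_, hx1 s⟩ b
      have hc : ∀ i j s, ∑ b, c b s * B b i j = x (finProdFinEquiv (i, j), s) := by
        intro i j s
        have h3 := congrArg (fun X : 𝒜 => (X : Matrix (Fin n) (Fin n) ℚ) i j)
          ((finBasis ℚ 𝒜).sum_repr ⟨_, hx1 s⟩)
        simp only [Submodule.coe_sum, Submodule.coe_smul, Matrix.sum_apply, Matrix.smul_apply,
          smul_eq_mul, Matrix.of_apply] at h3
        exact h3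
      have hE : E (fun p => c p.1 p.2) = x := by
        funext p
        obtain ⟨p, s⟩ := p
        change ∑ b, c b s * B b (finProdFinEquiv.symm p).1 (finProdFinEquiv.symm p).2 = _
        rw [hc, Prod.mk.eta, Equiv.apply_symm_apply]
      have hlin : lin B (fun b => ∑ s, algebraMap ℚ Cc (c b s) * l s) =
          Matrix.of fun i j : Fin n => ∑ s, algebraMap ℚ Cc
            (x (finProdFinEquiv (i, j), s)) * l s := by
        ext i j
        simp only [lin, Matrix.of_apply, Finset.mul_sum]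
        rw [Finset.sum_comm]
        refine Finset.sum_congr rfl fun s _ => ?_
        rw [← hc i j s, map_sum, Finset.sum_mul]
        refine Finset.sum_congr rfl fun b _ => ?_
        rw [map_mul]
        ring
      have h4 := h2 c ((famF_zero_iff M₀ B _).2 (by rw [hlin]; exact hx2)) (by
        intro R hR
        refine trans_fam hWM hr 𝒜 hρ M₀ B hB hB' _ (fun i j => ?_) (by rw [hlin]; exact hx3) R hR
        rw [hlin, Matrix.add_apply]
        refine L.add_mem (hM₀ i j) ?_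
        rw [Matrix.of_apply]
        refine Submodule.sum_mem _ fun s _ => ?_
        rw [← Algebra.smul_def]
        exact L.smul_mem _ (hl' s))
      simp only [LinearMap.comp_apply, hE] at h4
      exact h4)
  refine ⟨κ, fun H hH => ?_⟩
  have hfin : Set.Finite {A : Fin n → Fin n → Fin N → ℤ | (∀ i j s, |A i j s| ≤ H) ∧
      ((∀ s, (Matrix.of fun i j => (A i j s : ℚ)) ∈ 𝒜) ∧
      (M₀ + Matrix.of fun i j => ∑ s, (A i j s : Cc) * l s).rank ≤ r ∧
      ¬ RZ ℚ (M₀ + Matrix.of fun i j => ∑ s, (A i j s : Cc) * l s))} :=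
    Pool.Agent.TH519.HS.sing_finite H _
  rw [Set.ncard_eq_toFinset_card _ hfin]
  let g : (Fin n → Fin n → Fin N → ℤ) → (Fin (n * n) × Fin N → ℤ) :=
    fun A p => A (finProdFinEquiv.symm p.1).1 (finProdFinEquiv.symm p.1).2 p.2
  have hg : Function.Injective g := by
    intro A A' h
    funext i j s
    have := congrFun h (finProdFinEquiv (i, j), s)
    simp only [g, Equiv.symm_apply_apply] at this
    exact this
  rw [← Finset.card_image_of_injective _ hg]
  refine hκ H hH _ ?_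
  intro a ha
  obtain ⟨A, hA, rfl⟩ := Finset.mem_image.1 ha
  rw [Set.Finite.mem_toFinset] at hA
  obtain ⟨h1, h0, h2, h3⟩ := hA
  have h4 : (Matrix.of fun i j : Fin n => ∑ s, algebraMap ℚ Cc
      ((g A (finProdFinEquiv (i, j), s) : ℤ) : ℚ) * l s) =
      (Matrix.of fun i j => ∑ s, (A i j s : Cc) * l s) := by
    rw [← hcast A]
    ext i j
    simp only [Matrix.of_apply, g, Equiv.symm_apply_apply]
  refine ⟨fun p => h1 _ _ _, fun s => ?_, ?_, ?_⟩
  · have h5 : (Matrix.of fun i j : Fin n => ((g A (finProdFinEquiv (i, j), s) : ℤ) : ℚ)) =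
        Matrix.of fun i j => (A i j s : ℚ) := by
      ext i j
      simp only [Matrix.of_apply, g, Equiv.symm_apply_apply]
    change (Matrix.of fun i j : Fin n => ((g A (finProdFinEquiv (i, j), s) : ℤ) : ℚ)) ∈ 𝒜
    rw [h5]
    exact h0 s
  · change (M₀ + Matrix.of fun i j : Fin n => ∑ s, algebraMap ℚ Cc
      ((g A (finProdFinEquiv (i, j), s) : ℤ) : ℚ) * l s).rank ≤ r
    rw [h4]
    exact h2
  · change ¬ RZ ℚ (M₀ + Matrix.of fun i j : Fin n => ∑ s, algebraMap ℚ Cc
      ((g A (finProdFinEquiv (i, j), s) : ℤ) : ℚ) * l s)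
    rw [h4]
    exact h3

end main

end Pool.Agent.E8helper3.PT
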