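import Pool.Agent.E8helper3.PT.Low

/-!
# Linear families of matrices: complex and `p`-adic logarithms
-/

set_option autoImplicit false

namespace Pool.Agent.E8helper3.PT
open MvPolynomial Module
open Pool.Agent.W254.PA (Hyp logs)
open Pool.Agent.W245.PB (IsIwasawaLog)
open Pool.Agent.Y787.AS

section

variable {E : Type} [Field E] [CharZero E] [Uncountable E]

theorem famQ_dim {Lt L : Submodule ℚ E} (hL : Hyp Lt) (hWM : WMP ℚ L) (W : Submodule ℚ E)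
    [FiniteDimensional ℚ W] (hW : W ≤ Lt) (hW' : W ≤ L) {n r ρ : ℕ} (hr : r < n)
    (𝒜 : Submodule ℚ (Matrix (Fin n) (Fin n) ℚ)) (hρ : Coef ℚ r 𝒜 ρ)
    (hρ' : ρ ≤ finrank ℚ 𝒜) (M₀ : Matrix (Fin n) (Fin n) E) (hM₀ : ∀ i j, M₀ i j ∈ L)
    (φ : Fin (ρ * finrank ℚ W + (finrank ℚ 𝒜 - ρ) * (finrank ℚ 𝒜 - 1) + 1) →
      (Matrix (Fin n) (Fin n) W →ₗ[ℚ] ℚ)) :
    ∃ P : MvPolynomial (Fin (ρ * finrank ℚ W + (finrank ℚ 𝒜 - ρ) * (finrank ℚ 𝒜 - 1) + 1)) ℚ,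
      P ≠ 0 ∧ ∀ A : Matrix (Fin n) (Fin n) W, (∀ f : W →ₗ[ℚ] ℚ, A.map f ∈ 𝒜) →
      (M₀ + A.map (fun x => (x : E))).rank ≤ r →
      ¬ RatZero (M₀ + A.map (fun x => (x : E))) → eval (fun i => φ i A) P = 0 := by
  obtain ⟨P, h1, h2⟩ := fam_dim hL wts_pt hWM W hW hW' hr 𝒜 hρ hρ' M₀ hM₀ φ
  exact ⟨P, h1, fun A hA hA' hz => h2 A hA hA' fun h => hz (RatZero.of_rz h)⟩

theorem famQ_count {Lt L : Submodule ℚ E} (hL : Hyp Lt) (hWM : WMP ℚ L) {n r N ρ : ℕ}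
    (hr : r < n) (𝒜 : Submodule ℚ (Matrix (Fin n) (Fin n) ℚ)) (hρ : Coef ℚ r 𝒜 ρ)
    (hρ' : ρ ≤ finrank ℚ 𝒜) (M₀ : Matrix (Fin n) (Fin n) E) (hM₀ : ∀ i j, M₀ i j ∈ L)
    (l : Fin N → E) (hl : ∀ j, l j ∈ Lt) (hl' : ∀ j, l j ∈ L) (hli : LinearIndependent ℚ l) :
    ∃ κ : ℕ, ∀ H : ℕ, 1 ≤ H →
      Set.ncard {A : Fin n → Fin n → Fin N → ℤ | (∀ i j s, |A i j s| ≤ H) ∧
        ((∀ s, (Matrix.of fun i j => (A i j s : ℚ)) ∈ 𝒜) ∧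
        ((M₀ + Matrix.of fun i j => ∑ s, (A i j s : E) * l s).rank ≤ r ∧
        ¬ RatZero (M₀ + Matrix.of fun i j => ∑ s, (A i j s : E) * l s)))} ≤
      κ * H ^ (ρ * N + (finrank ℚ 𝒜 - ρ) * (finrank ℚ 𝒜 - 1)) := by
  obtain ⟨κ, hκ⟩ := fam_upper hL wts_pt hWM hr 𝒜 hρ hρ' M₀ hM₀ l hl hl' hli
  refine ⟨κ, fun H hH => le_trans (Set.ncard_le_ncard ?_ ?_) (hκ H hH)⟩
  · rintro A ⟨h1, h0, h2, h3⟩
    exact ⟨h1, h0, h2, fun h => h3 (RatZero.of_rz h)⟩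
  · exact Pool.Agent.TH519.HS.sing_finite H _

end

theorem famC_dim (W : Submodule ℚ ℂ) [FiniteDimensional ℚ W]
    (hW : ∀ z ∈ W, IsAlgebraic ℚ (Complex.exp z)) {n r ρ : ℕ} (hr : r < n)
    (𝒜 : Submodule ℚ (Matrix (Fin n) (Fin n) ℚ)) (hρ : Coef ℚ r 𝒜 ρ)
    (hρ' : ρ ≤ finrank ℚ 𝒜) (M₀ : Matrix (Fin n) (Fin n) ℂ)
    (hM₀ : ∀ i j, IsAlgebraic ℚ (Complex.exp (M₀ i j)))
    (φ : Fin (ρ * finrank ℚ W + (finrank ℚ 𝒜 - ρ) * (finrank ℚ 𝒜 - 1) + 1) →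
      (Matrix (Fin n) (Fin n) W →ₗ[ℚ] ℚ)) :
    ∃ P : MvPolynomial (Fin (ρ * finrank ℚ W + (finrank ℚ 𝒜 - ρ) * (finrank ℚ 𝒜 - 1) + 1)) ℚ,
      P ≠ 0 ∧ ∀ A : Matrix (Fin n) (Fin n) W, (∀ f : W →ₗ[ℚ] ℚ, A.map f ∈ 𝒜) →
      (M₀ + A.map (fun x => (x : ℂ))).rank ≤ r →
      ¬ RatZero (M₀ + A.map (fun x => (x : ℂ))) → eval (fun i => φ i A) P = 0 := by
  have := Pool.Agent.Y787.uncountable_complex
  exact famQ_dim hypQ_complex wmp_complex W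
    (fun z hz => Submodule.subset_span (Or.inr (hW z hz)))
    (fun z hz => Submodule.subset_span (hW z hz)) hr 𝒜 hρ hρ' M₀
    (fun i j => Submodule.subset_span (hM₀ i j)) φ

theorem famC_count {n r N ρ : ℕ} (hr : r < n)
    (𝒜 : Submodule ℚ (Matrix (Fin n) (Fin n) ℚ)) (hρ : Coef ℚ r 𝒜 ρ)
    (hρ' : ρ ≤ finrank ℚ 𝒜) (M₀ : Matrix (Fin n) (Fin n) ℂ)
    (hM₀ : ∀ i j, IsAlgebraic ℚ (Complex.exp (M₀ i j))) (l : Fin N → ℂ)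
    (halg : ∀ j, IsAlgebraic ℚ (Complex.exp (l j))) (hli : LinearIndependent ℚ l) :
    ∃ κ : ℕ, ∀ H : ℕ, 1 ≤ H →
      Set.ncard {A : Fin n → Fin n → Fin N → ℤ | (∀ i j s, |A i j s| ≤ H) ∧
        ((∀ s, (Matrix.of fun i j => (A i j s : ℚ)) ∈ 𝒜) ∧
        ((M₀ + Matrix.of fun i j => ∑ s, (A i j s : ℂ) * l s).rank ≤ r ∧
        ¬ RatZero (M₀ + Matrix.of fun i j => ∑ s, (A i j s : ℂ) * l s)))} ≤
      κ * H ^ (ρ * N + (finrank ℚ 𝒜 - ρ) * (finrank ℚ 𝒜 - 1)) := by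
  have := Pool.Agent.Y787.uncountable_complex
  exact famQ_count hypQ_complex wmp_complex hr 𝒜 hρ hρ' M₀
    (fun i j => Submodule.subset_span (hM₀ i j)) l
    (fun j => Submodule.subset_span (Or.inr (halg j)))
    (fun j => Submodule.subset_span (halg j)) hli

section padic

variable {p : ℕ} [hp : Fact p.Prime] {L : PadicAlgCl p → PadicAlgCl p}

theorem famP_dim (hL : IsIwasawaLog p L) (W : Submodule ℚ (PadicAlgCl p))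
    [FiniteDimensional ℚ W]
    (hW : ∀ z ∈ W, ∃ α : PadicAlgCl p, α ≠ 0 ∧ IsAlgebraic ℚ α ∧ z = L α) {n r ρ : ℕ}
    (hr : r < n) (𝒜 : Submodule ℚ (Matrix (Fin n) (Fin n) ℚ)) (hρ : Coef ℚ r 𝒜 ρ)
    (hρ' : ρ ≤ finrank ℚ 𝒜) (M₀ : Matrix (Fin n) (Fin n) (PadicAlgCl p))
    (hM₀ : ∀ i j, ∃ α : PadicAlgCl p, α ≠ 0 ∧ IsAlgebraic ℚ α ∧ M₀ i j = L α)
    (φ : Fin (ρ * finrank ℚ W + (finrank ℚ 𝒜 - ρ) * (finrank ℚ 𝒜 - 1) + 1) →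
      (Matrix (Fin n) (Fin n) W →ₗ[ℚ] ℚ)) :
    ∃ P : MvPolynomial (Fin (ρ * finrank ℚ W + (finrank ℚ 𝒜 - ρ) * (finrank ℚ 𝒜 - 1) + 1)) ℚ,
      P ≠ 0 ∧ ∀ A : Matrix (Fin n) (Fin n) W, (∀ f : W →ₗ[ℚ] ℚ, A.map f ∈ 𝒜) →
      (M₀ + A.map (fun x => (x : PadicAlgCl p))).rank ≤ r →
      ¬ RatZero (M₀ + A.map (fun x => (x : PadicAlgCl p))) → eval (fun i => φ i A) P = 0 :=
  famQ_dim (hypQ_padic hL) (wmp_padic hL) W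
    (fun z hz => Submodule.subset_span (Or.inr (hW z hz)))
    (fun z hz => Submodule.subset_span (hW z hz)) hr 𝒜 hρ hρ' M₀
    (fun i j => Submodule.subset_span (hM₀ i j)) φ

theorem famP_count (hL : IsIwasawaLog p L) {n r N ρ : ℕ} (hr : r < n)
    (𝒜 : Submodule ℚ (Matrix (Fin n) (Fin n) ℚ)) (hρ : Coef ℚ r 𝒜 ρ)
    (hρ' : ρ ≤ finrank ℚ 𝒜) (M₀ : Matrix (Fin n) (Fin n) (PadicAlgCl p))
    (hM₀ : ∀ i j, ∃ α : PadicAlgCl p, α ≠ 0 ∧ IsAlgebraic ℚ α ∧ M₀ i j = L α)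
    (l : Fin N → PadicAlgCl p)
    (hl : ∀ j, ∃ α : PadicAlgCl p, α ≠ 0 ∧ IsAlgebraic ℚ α ∧ l j = L α)
    (hli : LinearIndependent ℚ l) :
    ∃ κ : ℕ, ∀ H : ℕ, 1 ≤ H →
      Set.ncard {A : Fin n → Fin n → Fin N → ℤ | (∀ i j s, |A i j s| ≤ H) ∧
        ((∀ s, (Matrix.of fun i j => (A i j s : ℚ)) ∈ 𝒜) ∧
        ((M₀ + Matrix.of fun i j => ∑ s, (A i j s : PadicAlgCl p) * l s).rank ≤ r ∧
        ¬ RatZero (M₀ + Matrix.of fun i j => ∑ s, (A i j s : PadicAlgCl p) * l s)))} ≤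
      κ * H ^ (ρ * N + (finrank ℚ 𝒜 - ρ) * (finrank ℚ 𝒜 - 1)) :=
  famQ_count (hypQ_padic hL) (wmp_padic hL) hr 𝒜 hρ hρ' M₀
    (fun i j => Submodule.subset_span (hM₀ i j)) l
    (fun j => Submodule.subset_span (Or.inr (hl j))) (fun j => Submodule.subset_span (hl j)) hli

end padic

end Pool.Agent.E8helper3.PT
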