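import Pool.Agent.E8helper3.PT.Fam

/-!
# Linear families of matrices: the lower bound
-/

set_option autoImplicit false

namespace Pool.Agent.E8helper3.PT
open MvPolynomial Module
open Pool.Agent.Y787.AS

/-- integer matrices which are a basis of a rational space -/
theorem int_basis_mat {n : ℕ} (R : Submodule ℚ (Matrix (Fin n) (Fin n) ℚ)) :
    ∃ v : Fin (finrank ℚ R) → Fin n → Fin n → ℤ,
      LinearIndependent ℚ (fun a => (Matrix.of fun i j => (v a i j : ℚ))) ∧
      ∀ a, (Matrix.of fun i j => (v a i j : ℚ)) ∈ R := by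
  classical
  let ψ : Matrix (Fin n) (Fin n) ℚ →ₗ[ℚ] (Fin (n * n) → ℚ) :=
    { toFun := fun X p => X (finProdFinEquiv.symm p).1 (finProdFinEquiv.symm p).2
      map_add' := fun _ _ => rfl
      map_smul' := fun _ _ => rfl }
  let θ : (Fin (n * n) → ℚ) →ₗ[ℚ] Matrix (Fin n) (Fin n) ℚ :=
    { toFun := fun x => Matrix.of fun i j => x (finProdFinEquiv (i, j))
      map_add' := fun _ _ => rfl
      map_smul' := fun _ _ => rfl }
  have hθψ : ∀ X, θ (ψ X) = X := by
    intro X
    ext i j
    change X (finProdFinEquiv.symm (finProdFinEquiv (i, j))).1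
      (finProdFinEquiv.symm (finProdFinEquiv (i, j))).2 = _
    rw [Equiv.symm_apply_apply]
  have hψθ : ∀ x, ψ (θ x) = x := by
    intro x
    funext p
    change x (finProdFinEquiv ((finProdFinEquiv.symm p).1, (finProdFinEquiv.symm p).2)) = _
    rw [Prod.mk.eta, Equiv.apply_symm_apply]
  have hψ : Function.Injective ψ := fun X Y h => by rw [← hθψ X, h, hθψ]
  have hθ : Function.Injective θ := fun X Y h => by rw [← hψθ X, h, hψθ]
  have hfr : finrank ℚ (R.map ψ) = finrank ℚ R :=
    (Submodule.equivMapOfInjective ψ hψ R).finrank_eq.symm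
  obtain ⟨v, hv1, hv2⟩ : ∃ v : Fin (finrank ℚ R) → Fin (n * n) → ℤ,
      LinearIndependent ℚ (fun a i => (v a i : ℚ)) ∧ ∀ a, (fun i => (v a i : ℚ)) ∈ R.map ψ := by
    rw [← hfr]
    exact int_basis' (R.map ψ)
  refine ⟨fun a i j => v a (finProdFinEquiv (i, j)), ?_, ?_⟩
  · exact hv1.map' θ (LinearMap.ker_eq_bot.2 hθ)
  · intro a
    obtain ⟨X, hX, hX'⟩ := hv2 a
    have h1 : θ (fun i => (v a i : ℚ)) ∈ R := by
      rw [← hX', hθψ]
      exact hX
    exact h1

/-- a rational space of matrices of rank at most `r` has this property over every field -/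
theorem rank_ext {E : Type} [Field E] [CharZero E] {n r ρ : ℕ}
    (v : Fin ρ → Fin n → Fin n → ℤ)
    (h : ∀ q : Fin ρ → ℚ, (Matrix.of fun i j => ∑ a, q a * (v a i j : ℚ)).rank ≤ r)
    (x : Fin ρ → E) : (Matrix.of fun i j => ∑ a, x a * (v a i j : E)).rank ≤ r := by
  refine rank_le_of_minors _ fun s t => ?_
  let P : MvPolynomial (Fin ρ) ℚ :=
    (Matrix.of fun i j : Fin (r + 1) => ∑ a, (X a * C (v a (s i) (t j) : ℚ) :
      MvPolynomial (Fin ρ) ℚ)).det
  have hP : P = 0 := by
    refine MvPolynomial.funext fun q => ?_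
    rw [map_zero]
    have h1 : eval q P = ((Matrix.of fun i j => ∑ a, q a * (v a i j : ℚ)).submatrix s t).det := by
      change eval q (Matrix.det _) = _
      rw [RingHom.map_det]
      congr 1
      ext i j
      simp
    rw [h1]
    by_contra h0
    have h2 := Pool.Agent.W824.BJ.le_rank_of_minor _ _ _ h0
    have h3 := h q
    omega
  have h1 : aeval x P = ((Matrix.of fun i j => ∑ a, x a * (v a i j : E)).submatrix s t).det := by
    change (aeval x : MvPolynomial (Fin ρ) ℚ →ₐ[ℚ] E) (Matrix.det _) = _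
    rw [AlgHom.map_det]
    congr 1
    ext i j
    simp
  rw [← h1, hP, map_zero]

/-- **Counting, lower bound.** -/
theorem fam_lower {E : Type} [Field E] [CharZero E] {n r N : ℕ}
    (R : Submodule ℚ (Matrix (Fin n) (Fin n) ℚ)) (hR : ∀ A ∈ R, A.rank ≤ r) (l : Fin N → E) :
    ∃ κ : ℕ, 1 ≤ κ ∧ ∀ H : ℕ, H ^ (finrank ℚ R * N) ≤ κ *
      Set.ncard {A : Fin n → Fin n → Fin N → ℤ | (∀ i j s, |A i j s| ≤ H) ∧
        ((∀ s, (Matrix.of fun i j => (A i j s : ℚ)) ∈ R) ∧
        (Matrix.of fun i j => ∑ s, (A i j s : E) * l s).rank ≤ r)} := by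
  classical
  obtain ⟨ρ, hρ, v, hv1, hv2⟩ : ∃ ρ, finrank ℚ R = ρ ∧ ∃ v : Fin ρ → Fin n → Fin n → ℤ,
      LinearIndependent ℚ (fun a => (Matrix.of fun i j => (v a i j : ℚ))) ∧
      ∀ a, (Matrix.of fun i j => (v a i j : ℚ)) ∈ R := ⟨_, rfl, int_basis_mat R⟩
  rw [hρ]
  obtain ⟨M, hM1, hM⟩ : ∃ M : ℕ, 1 ≤ M ∧ ∀ i j, ∑ a, |v a i j| ≤ M := by
    refine ⟨1 + ∑ i, ∑ j, ∑ a, (v a i j).natAbs, by omega, fun i j => ?_⟩
    have h1 : ∑ a, (v a i j).natAbs ≤ ∑ i, ∑ j, ∑ a, (v a i j).natAbs :=
      (Finset.single_le_sum (f := fun j => ∑ a, (v a i j).natAbs) (fun _ _ => Nat.zero_le _)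
        (Finset.mem_univ j)).trans
        (Finset.single_le_sum (f := fun i => ∑ j, ∑ a, (v a i j).natAbs)
          (fun _ _ => Nat.zero_le _) (Finset.mem_univ i))
    have h2 : ∑ a, |v a i j| = ((∑ a, (v a i j).natAbs : ℕ) : ℤ) := by
      push_cast
      rfl
    rw [h2]
    exact_mod_cast (by omega : ∑ a, (v a i j).natAbs ≤ 1 + ∑ i, ∑ j, ∑ a, (v a i j).natAbs)
  refine ⟨M ^ (ρ * N), Nat.one_le_pow _ _ hM1, fun H => ?_⟩
  set T := H / M with hT
  have hT1 : H ≤ M * (T + 1) := by
    have h1 := Nat.div_add_mod H M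
    have h2 := Nat.mod_lt H (by omega : 0 < M)
    rw [← hT] at h1
    rw [Nat.mul_add]
    omega
  have hT2 : M * T ≤ H := Nat.mul_div_le H M
  let G : (Fin ρ → Fin N → ℤ) → (Fin n → Fin n → Fin N → ℤ) := fun c i j s =>
    ∑ a, c a s * v a i j
  have hG : Function.Injective G := by
    intro c c' h
    funext a s
    have h1 := (Fintype.linearIndependent_iff.1 hv1) (fun a => ((c a s - c' a s : ℤ) : ℚ)) (by
      ext i j
      have h2 := congrFun (congrFun (congrFun h i) j) s
      simp only [G] at h2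
      rw [Matrix.sum_apply, Matrix.zero_apply]
      simp only [Matrix.smul_apply, Matrix.of_apply, smul_eq_mul]
      have h4 : ∑ a, ((c a s - c' a s : ℤ) : ℚ) * (v a i j : ℚ) =
          ((∑ a, c a s * v a i j - ∑ a, c' a s * v a i j : ℤ) : ℚ) := by
        rw [← Finset.sum_sub_distrib]
        push_cast
        refine Finset.sum_congr rfl fun a _ => ?_
        ring
      rw [h4, h2, sub_self, Int.cast_zero]) a
    have h2 : c a s - c' a s = 0 := by exact_mod_cast h1
    linarith
  let B : Finset (Fin ρ → Fin N → ℤ) :=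
    Fintype.piFinset fun _ => Fintype.piFinset fun _ => Finset.Icc (0 : ℤ) (T : ℤ)
  have hB : B.card = (T + 1) ^ (ρ * N) := by
    rw [Fintype.card_piFinset]
    simp only [Fintype.card_piFinset, Int.card_Icc, Finset.prod_const, Finset.card_univ,
      Fintype.card_fin, sub_zero]
    rw [← pow_mul, mul_comm N ρ]
    congr 1
  have h1 : B.card ≤ Set.ncard {A : Fin n → Fin n → Fin N → ℤ | (∀ i j s, |A i j s| ≤ H) ∧
        ((∀ s, (Matrix.of fun i j => (A i j s : ℚ)) ∈ R) ∧
        (Matrix.of fun i j => ∑ s, (A i j s : E) * l s).rank ≤ r)} := by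
    rw [← Finset.card_image_of_injective _ hG, ← Set.ncard_coe_finset]
    refine Set.ncard_le_ncard ?_ (Pool.Agent.TH519.HS.sing_finite H _)
    intro A hA
    rw [Finset.mem_coe, Finset.mem_image] at hA
    obtain ⟨c, hc, rfl⟩ := hA
    simp only [B, Fintype.mem_piFinset, Finset.mem_Icc] at hc
    refine ⟨fun i j s => ?_, fun s => ?_, ?_⟩
    · have e1 : |∑ a, c a s * v a i j| ≤ T * M := by
        refine (Finset.abs_sum_le_sum_abs _ _).trans ?_
        have e2 : ∑ a, |c a s * v a i j| ≤ ∑ a, (T : ℤ) * |v a i j| := by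
          refine Finset.sum_le_sum fun a _ => ?_
          rw [abs_mul]
          refine mul_le_mul_of_nonneg_right ?_ (abs_nonneg _)
          rw [abs_le]
          have := hc a s
          constructor <;> omega
        refine e2.trans ?_
        rw [← Finset.mul_sum]
        exact mul_le_mul_of_nonneg_left (hM i j) (by positivity)
      have e4 : (T : ℤ) * M ≤ H := by
        have : (M * T : ℤ) ≤ H := by exact_mod_cast hT2
        linarith [mul_comm (T : ℤ) (M : ℤ)]
      exact e1.trans e4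
    · have e1 : (Matrix.of fun i j => ((G c i j s : ℤ) : ℚ)) =
          ∑ a, (c a s : ℚ) • (Matrix.of fun i j => (v a i j : ℚ)) := by
        ext i j
        rw [Matrix.sum_apply]
        simp [G]
      rw [e1]
      exact Submodule.sum_mem _ fun a _ => R.smul_mem _ (hv2 a)
    · have e1 : (Matrix.of fun i j => ∑ s, ((G c i j s : ℤ) : E) * l s) =
          Matrix.of fun i j => ∑ a, (∑ s, (c a s : E) * l s) * (v a i j : E) := by
        ext i j
        simp only [Matrix.of_apply, G, Int.cast_sum, Int.cast_mul, Finset.sum_mul]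
        rw [Finset.sum_comm]
        refine Finset.sum_congr rfl fun a _ => Finset.sum_congr rfl fun s _ => ?_
        ring
      rw [e1]
      refine rank_ext v (fun q => hR _ ?_) _
      have e2 : (Matrix.of fun i j => ∑ a, q a * (v a i j : ℚ)) =
          ∑ a, q a • (Matrix.of fun i j => (v a i j : ℚ)) := by
        ext i j
        rw [Matrix.sum_apply]
        simp
      rw [e2]
      exact Submodule.sum_mem _ fun a _ => R.smul_mem _ (hv2 a)
  calc H ^ (ρ * N) ≤ (M * (T + 1)) ^ (ρ * N) := Nat.pow_le_pow_left hT1 _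
    _ = M ^ (ρ * N) * B.card := by rw [mul_pow, hB]
    _ ≤ _ := Nat.mul_le_mul_left _ h1

end Pool.Agent.E8helper3.PT
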