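import Pool.Agent.E8helper3.PT.Fin
import Pool.Agent.E8helper3.PT.Stm

/-!
# The maximal dimension of a subspace of matrices of small rank
-/

set_option autoImplicit false

namespace Pool.Agent.E8helper3.PT
open Module
open Pool.Agent.Y787.AS

section

variable {n : ℕ} (𝒜 : Submodule ℚ (Matrix (Fin n) (Fin n) ℚ))

/-- the dimensions of the subspaces of matrices of rank at most `s` -/
def dims (s : ℕ) : Set ℕ :=
  {d | ∃ R : Submodule ℚ (Matrix (Fin n) (Fin n) ℚ), R ≤ 𝒜 ∧ (∀ A ∈ R, A.rank ≤ s) ∧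
    Module.finrank ℚ R = d}

theorem dims_bdd (s : ℕ) : BddAbove (dims 𝒜 s) := by
  refine ⟨finrank ℚ 𝒜, ?_⟩
  rintro d ⟨R, h1, -, rfl⟩
  exact Submodule.finrank_mono h1

theorem dims_ne (s : ℕ) : (dims 𝒜 s).Nonempty := by
  refine ⟨0, ⊥, bot_le, ?_, finrank_bot _ _⟩
  intro A hA
  rw [(Submodule.mem_bot ℚ).1 hA, Matrix.rank_zero]
  exact Nat.zero_le _

theorem sr_mem (s : ℕ) : ∃ R : Submodule ℚ (Matrix (Fin n) (Fin n) ℚ), R ≤ 𝒜 ∧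
    (∀ A ∈ R, A.rank ≤ s) ∧ Module.finrank ℚ R = sSup (dims 𝒜 s) :=
  Nat.sSup_mem (dims_ne 𝒜 s) (dims_bdd 𝒜 s)

theorem le_sr {s : ℕ} (R : Submodule ℚ (Matrix (Fin n) (Fin n) ℚ)) (h : R ≤ 𝒜)
    (h' : ∀ A ∈ R, A.rank ≤ s) : finrank ℚ R ≤ sSup (dims 𝒜 s) :=
  le_csSup (dims_bdd 𝒜 s) ⟨R, h, h', rfl⟩

theorem sr_le_finrank (s : ℕ) : sSup (dims 𝒜 s) ≤ finrank ℚ 𝒜 := by
  obtain ⟨R, h1, -, h2⟩ := sr_mem 𝒜 s
  rw [← h2]
  exact Submodule.finrank_mono h1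

theorem coef_sr (r : ℕ) :
    Coef ℚ r 𝒜 (if 2 * r ≤ n + 1 then 0 else sSup (dims 𝒜 (2 * r - n))) := by
  unfold Coef
  split_ifs with h
  · exact Or.inl h
  · exact Or.inr fun S hS hS' => le_sr 𝒜 S hS hS'

theorem coef_le (r : ℕ) :
    (if 2 * r ≤ n + 1 then 0 else sSup (dims 𝒜 (2 * r - n))) ≤ finrank ℚ 𝒜 := by
  split_ifs with h
  · exact Nat.zero_le _
  · exact sr_le_finrank 𝒜 _

theorem lower_sr {E : Type} [Field E] [CharZero E] {N : ℕ} (r : ℕ) (l : Fin N → E) :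
    ∃ κ : ℕ, 1 ≤ κ ∧ ∀ H : ℕ, H ^ (sSup (dims 𝒜 r) * N) ≤ κ *
      Set.ncard {A : Fin n → Fin n → Fin N → ℤ | (∀ i j s, |A i j s| ≤ H) ∧
        ((∀ s, (Matrix.of fun i j => (A i j s : ℚ)) ∈ 𝒜) ∧
        ((0 : Matrix (Fin n) (Fin n) E) +
          Matrix.of fun i j => ∑ s, (A i j s : E) * l s).rank ≤ r)} := by
  obtain ⟨R, h1, h2, h3⟩ := sr_mem 𝒜 r
  obtain ⟨κ, h4, h5⟩ := fam_lower R h2 l
  rw [h3] at h5
  refine ⟨κ, h4, fun H => (h5 H).trans (Nat.mul_le_mul_left _ (Set.ncard_le_ncard ?_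
    (Pool.Agent.TH519.HS.sing_finite H _)))⟩
  rintro A ⟨e1, e2, e3⟩
  exact ⟨e1, fun s => h1 (e2 s), by rw [zero_add]; exact e3⟩

end

theorem sr_hankel (hk : S_HK) (hd : S_HD) {n s : ℕ} (hs : s < n) :
    sSup (dims (hankel n) s) = s := by
  refine le_antisymm ?_ ?_
  · obtain ⟨R, h1, h2, h3⟩ := sr_mem (hankel n) s
    rw [← h3]
    exact hk n s R h1 hs h2
  · obtain ⟨R, h1, h2, h3⟩ := hd.2 n s hs.le
    have := le_sr (hankel n) R h1 h2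
    rwa [h3] at this

theorem sr_sym_le (sy : S_SY) (n s : ℕ) : 2 * sSup (dims (sym n) s) ≤ s * (n + 1) := by
  obtain ⟨R, h1, h2, h3⟩ := sr_mem (sym n) s
  rw [← h3]
  exact sy n s R h1 h2

theorem le_sr_sym (sd : S_SD) {n s : ℕ} (hs : s ≤ n) :
    s * (s + 1) ≤ 2 * sSup (dims (sym n) s) := by
  obtain ⟨R, h1, h2, h3⟩ := sd.2 n s hs
  rw [← h3]
  exact Nat.mul_le_mul_left _ (le_sr (sym n) R h1 h2)

theorem compare (hk : S_HK) (hd : S_HD) (sy : S_SY) (sd : S_SD) {n r : ℕ} (h1 : r < n)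
    (h2 : n < 2 * r) :
    sSup (dims (hankel n) (2 * r - n)) < sSup (dims (hankel n) r) ∧
    sSup (dims (sym n) (2 * r - n)) < sSup (dims (sym n) r) := by
  constructor
  · rw [sr_hankel hk hd h1, sr_hankel hk hd (by omega)]
    omega
  · have e1 := sr_sym_le sy n (2 * r - n)
    have e2 := le_sr_sym sd h1.le
    have e3 : (2 * r - n) * (n + 1) < r * (r + 1) := by
      obtain ⟨a, rfl⟩ : ∃ a, n = r + (a + 1) := ⟨n - r - 1, by omega⟩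
      obtain ⟨b, rfl⟩ : ∃ b, r = a + 1 + b := ⟨r - (a + 1), by omega⟩
      have e4 : 2 * (a + 1 + b) - (a + 1 + b + (a + 1)) = b := by omega
      rw [e4]
      nlinarith
    omega

end Pool.Agent.E8helper3.PT
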